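import Mathlib

open Filter
open scoped BigOperators Polynomial

namespace Pool.Agent.Results.MP_c74d57_an.IrrationalOptimum

/-! ### Definitions -/

/-- `X ∈ ℓ_1^{p×q}`: every entry of the causal matrix sequence `X` is absolutely summable. -/
def IsL1 {p q : ℕ} (X : ℕ → Matrix (Fin p) (Fin q) ℝ) : Prop :=
  ∀ i j, Summable fun k => |X k i j|

/-- Convolution `(XY)(k) = ∑_{t=0}^{k} X(t) Y(k-t)`. -/
def conv {p q r : ℕ} (X : ℕ → Matrix (Fin p) (Fin q) ℝ) (Y : ℕ → Matrix (Fin q) (Fin r) ℝ) :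
    ℕ → Matrix (Fin p) (Fin r) ℝ :=
  fun k => ∑ t ∈ Finset.range (k + 1), X t * Y (k - t)

/-- The `ℓ_∞`-induced norm `max_i ∑_j ∑_k |X_{ij}(k)|`. -/
noncomputable def l1Norm {p q : ℕ} (X : ℕ → Matrix (Fin p) (Fin q) ℝ) : ℝ :=
  ⨆ i : Fin p, ∑ j : Fin q, ∑' k : ℕ, |X k i j|

/-- The matrix `R` of rational functions is the `λ`-transform of `X`: every entry `R i j` is a
quotient `a / b` of polynomials with `b(λ) · ∑_k X_{ij}(k) λ^k = a(λ)` (as power series). -/
def IsTransform {p q : ℕ} (R : Matrix (Fin p) (Fin q) (RatFunc ℝ))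
    (X : ℕ → Matrix (Fin p) (Fin q) ℝ) : Prop :=
  ∀ i j, ∃ a b : ℝ[X], b ≠ 0 ∧
    (b : PowerSeries ℝ) * PowerSeries.mk (fun k => X k i j) = (a : PowerSeries ℝ) ∧
    R i j = algebraMap ℝ[X] (RatFunc ℝ) a / algebraMap ℝ[X] (RatFunc ℝ) b

/-- `X` is rational: its `λ`-transform is a matrix of rational functions. -/
def IsRational {p q : ℕ} (X : ℕ → Matrix (Fin p) (Fin q) ℝ) : Prop :=
  ∃ R : Matrix (Fin p) (Fin q) (RatFunc ℝ), IsTransform R X

/-- The (rational) instance is multi-block: it is not the case that `Û` has full row normal rank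
and `V̂` has full column normal rank (rank over the field of rational functions). -/
def IsMultiBlock {nz nw nu ny : ℕ} (U : ℕ → Matrix (Fin nz) (Fin nu) ℝ)
    (V : ℕ → Matrix (Fin ny) (Fin nw) ℝ) : Prop :=
  ∃ (RU : Matrix (Fin nz) (Fin nu) (RatFunc ℝ)) (RV : Matrix (Fin ny) (Fin nw) (RatFunc ℝ)),
    IsTransform RU U ∧ IsTransform RV V ∧ ¬ (RU.rank = nz ∧ RV.rank = nw)

/-- The static (memoryless) system with gain matrix `M`: the sequence `(M, 0, 0, …)`, whose
`λ`-transform is the constant matrix `M`. -/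
def static {p q : ℕ} (M : Matrix (Fin p) (Fin q) ℝ) : ℕ → Matrix (Fin p) (Fin q) ℝ :=
  fun k => if k = 0 then M else 0

/-- `Q ∈ ℓ_1` is an optimal solution of `inf_{Q ∈ ℓ_1} ‖H - UQV‖_1`. -/
def IsOptimal {nz nw nu ny : ℕ} (H : ℕ → Matrix (Fin nz) (Fin nw) ℝ)
    (U : ℕ → Matrix (Fin nz) (Fin nu) ℝ) (V : ℕ → Matrix (Fin ny) (Fin nw) ℝ)
    (Q : ℕ → Matrix (Fin nu) (Fin ny) ℝ) : Prop :=
  IsL1 Q ∧ ∀ Q' : ℕ → Matrix (Fin nu) (Fin ny) ℝ, IsL1 Q' →
    l1Norm (H - conv (conv U Q) V) ≤ l1Norm (H - conv (conv U Q') V)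

/-! ### The scalar sequences -/

/-- `s_k = 20 - k² (1 - cos (2π k √2))`. -/
noncomputable def s (k : ℕ) : ℝ := 20 - (k : ℝ) ^ 2 * (1 - Real.cos (2 * Real.pi * (k * √2)))

/-- `h_k = 2^{-k} s_k`. -/
noncomputable def h (k : ℕ) : ℝ := (1 / 2 : ℝ) ^ k * s k

/-- `g_k = 20 · 2^{-k}`. -/
noncomputable def g (k : ℕ) : ℝ := 20 * (1 / 2 : ℝ) ^ k

lemma s_le (k : ℕ) : s k ≤ 20 := by
  unfold s
  have h1 : Real.cos (2 * Real.pi * (k * √2)) ≤ 1 := Real.cos_le_one _
  have h2 : 0 ≤ (k : ℝ) ^ 2 * (1 - Real.cos (2 * Real.pi * (k * √2))) :=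
    mul_nonneg (by positivity) (by linarith)
  linarith

lemma abs_s_le (k : ℕ) : |s k| ≤ 20 + 2 * (k : ℝ) ^ 2 := by
  have h1 : -1 ≤ Real.cos (2 * Real.pi * (k * √2)) := Real.neg_one_le_cos _
  have h3 := s_le k
  have h4 : 0 ≤ (k : ℝ) ^ 2 := by positivity
  rw [abs_le]
  constructor
  · unfold s
    nlinarith
  · linarith

lemma h_le_g (k : ℕ) : h k ≤ g k := by
  unfold h g
  have := s_le k
  have h2 : (0 : ℝ) < (1 / 2 : ℝ) ^ k := by positivity
  nlinarith

lemma g_nonneg (k : ℕ) : 0 ≤ g k := by unfold g; positivity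

lemma summable_g : Summable g := by
  unfold g
  exact (summable_geometric_of_lt_one (by norm_num) (by norm_num)).mul_left _

lemma summable_h : Summable fun k => |h k| := by
  have h1 : Summable fun k : ℕ => 20 * (1 / 2 : ℝ) ^ k + 2 * ((k : ℝ) ^ 2 * (1 / 2 : ℝ) ^ k) := by
    refine ((summable_geometric_of_lt_one (by norm_num) (by norm_num)).mul_left _).add
      (Summable.mul_left _ ?_)
    exact summable_pow_mul_geometric_of_norm_lt_one 2 (by norm_num)
  refine Summable.of_nonneg_of_le (fun k => abs_nonneg _) (fun k => ?_) h1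
  unfold h
  rw [abs_mul, abs_of_nonneg (show (0 : ℝ) ≤ (1 / 2 : ℝ) ^ k by positivity)]
  have := abs_s_le k
  have h2 : (0 : ℝ) < (1 / 2 : ℝ) ^ k := by positivity
  nlinarith

/-! ### Sign pattern of `s` -/

lemma sqrt_two_mul_ne (j : ℕ) (hj : 0 < j) (n : ℤ) : (j : ℝ) * √2 ≠ n := by
  have hirr : Irrational (√2) := irrational_sqrt_two
  have h1 : Irrational ((j : ℝ) * √2) := by
    have := hirr.natCast_mul (Nat.pos_iff_ne_zero.mp hj)
    exact this
  exact h1.ne_int n

/-- `s` is positive infinitely often (Dirichlet). -/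
lemma frequently_pos : ∃ᶠ k : ℕ in atTop, 0 < s k := by
  rw [frequently_atTop]
  intro K
  -- a lower bound for the distances of `k √2` to the integers, `k < K`
  obtain ⟨n, hn1, hn2⟩ : ∃ n : ℕ, 0 < n ∧ ∀ k : ℕ, 0 < k → k < K →
      1 / ((n : ℝ) + 1) < |(k : ℝ) * √2 - round ((k : ℝ) * √2)| := by
    have hev : ∀ᶠ n : ℕ in atTop, ∀ k ∈ Finset.range K, 0 < k →
        1 / ((n : ℝ) + 1) < |(k : ℝ) * √2 - round ((k : ℝ) * √2)| := by
      rw [Filter.eventually_all_finset]
      intro k _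
      by_cases hk : 0 < k
      · have hpos : 0 < |(k : ℝ) * √2 - round ((k : ℝ) * √2)| := by
          rw [abs_pos, sub_ne_zero]
          exact sqrt_two_mul_ne k hk _
        have ht := tendsto_one_div_add_atTop_nhds_zero_nat (𝕜 := ℝ)
        filter_upwards [ht.eventually_lt_const hpos] with n hn _
        exact hn
      · exact Eventually.of_forall fun n hk' => absurd hk' hk
    obtain ⟨n, hn, hn'⟩ := (hev.and (eventually_gt_atTop 0)).exists
    exact ⟨n, hn', fun k hk0 hkK => hn k (Finset.mem_range.mpr hkK) hk0⟩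
  obtain ⟨k, hk0, hkn, hk⟩ := Real.exists_nat_abs_mul_sub_round_le (√2) hn1
  have hkK : K ≤ k := by
    by_contra hlt
    push Not at hlt
    exact absurd hk (not_le.mpr (hn2 k hk0 hlt))
  refine ⟨k, hkK, ?_⟩
  have hk0' : (0 : ℝ) < k := by exact_mod_cast hk0
  set y : ℝ := (k : ℝ) * √2 - round ((k : ℝ) * √2) with hy
  have hyk : |y| ≤ 1 / k := by
    refine hk.trans ?_
    apply one_div_le_one_div_of_le hk0'
    have : (k : ℝ) ≤ n := by exact_mod_cast hkn
    linarith
  have hcos : Real.cos (2 * Real.pi * (k * √2)) = Real.cos (2 * Real.pi * y) := by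
    rw [hy, mul_sub]
    rw [show 2 * Real.pi * (round ((k : ℝ) * √2) : ℝ) = (round ((k : ℝ) * √2) : ℝ) * (2 * Real.pi)
      by ring]
    rw [Real.cos_sub_int_mul_two_pi]
  have hlow : 1 - (2 * Real.pi * y) ^ 2 / 2 ≤ Real.cos (2 * Real.pi * y) :=
    Real.one_sub_sq_div_two_le_cos
  have hy2 : y ^ 2 ≤ (1 / (k : ℝ)) ^ 2 := by
    rw [← sq_abs y]
    exact pow_le_pow_left₀ (abs_nonneg _) hyk 2
  have hky : (k : ℝ) ^ 2 * y ^ 2 ≤ 1 := by
    have : (k : ℝ) ^ 2 * (1 / (k : ℝ)) ^ 2 = 1 := by field_simp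
    nlinarith [sq_nonneg (k : ℝ), sq_nonneg y]
  have hpi : Real.pi ^ 2 < 10 := by
    have := Real.pi_lt_d2
    have := Real.pi_pos
    nlinarith
  unfold s
  rw [hcos]
  have h5 : (k : ℝ) ^ 2 * (1 - Real.cos (2 * Real.pi * y)) ≤ (k : ℝ) ^ 2 * ((2 * Real.pi * y) ^ 2 / 2) := by
    apply mul_le_mul_of_nonneg_left _ (by positivity)
    linarith
  have h6 : (k : ℝ) ^ 2 * ((2 * Real.pi * y) ^ 2 / 2) = 2 * Real.pi ^ 2 * ((k : ℝ) ^ 2 * y ^ 2) := by
    ring
  have h7 : 2 * Real.pi ^ 2 * ((k : ℝ) ^ 2 * y ^ 2) ≤ 2 * Real.pi ^ 2 * 1 := by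
    apply mul_le_mul_of_nonneg_left hky (by positivity)
  linarith

lemma abs_sin_lt {k : ℕ} (hk0 : 0 < k) (hk : 0 < s k) :
    |Real.sin (Real.pi * (k * √2))| < 4 / k := by
  have hk0' : (0 : ℝ) < k := by exact_mod_cast hk0
  have h1 : Real.cos (2 * Real.pi * (k * √2)) = 1 - 2 * Real.sin (Real.pi * (k * √2)) ^ 2 := by
    rw [show 2 * Real.pi * (k * √2) = 2 * (Real.pi * (k * √2)) by ring, Real.cos_two_mul]
    have := Real.sin_sq_add_cos_sq (Real.pi * (k * √2))
    linarith
  unfold s at hk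
  rw [h1] at hk
  rw [lt_div_iff₀ hk0']
  set S := |Real.sin (Real.pi * (k * √2))| with hS
  have hS2 : S ^ 2 = Real.sin (Real.pi * (k * √2)) ^ 2 := sq_abs _
  rw [← hS2] at hk
  have hSn : 0 ≤ S := abs_nonneg _
  by_contra hcon
  push Not at hcon
  nlinarith

/-- The positive values of `s` are separated by longer and longer gaps. -/
lemma eventually_gap (j : ℕ) (hj : 0 < j) : ∀ᶠ k : ℕ in atTop, 0 < s k → s (k + j) ≤ 0 := by
  have hδ : 0 < |Real.sin (Real.pi * (j * √2))| := by
    rw [abs_pos]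
    intro h0
    rw [Real.sin_eq_zero_iff] at h0
    obtain ⟨n, hn⟩ := h0
    have hpi := Real.pi_ne_zero
    have : (j : ℝ) * √2 = n := by
      have h2 : Real.pi * ((j : ℝ) * √2) = Real.pi * n := by rw [← hn]; ring
      exact mul_left_cancel₀ hpi h2
    exact sqrt_two_mul_ne j hj n this
  set δ := |Real.sin (Real.pi * (j * √2))| with hδdef
  have ht : Tendsto (fun k : ℕ => 8 / (k : ℝ)) atTop (nhds 0) :=
    tendsto_const_div_atTop_nhds_zero_nat 8
  filter_upwards [ht.eventually_lt_const hδ, eventually_gt_atTop 0] with k hk hk0 hpos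
  by_contra hcon
  push Not at hcon
  have hk0' : (0 : ℝ) < k := by exact_mod_cast hk0
  have h1 := abs_sin_lt hk0 hpos
  have h2 := abs_sin_lt (Nat.add_pos_left hk0 j) hcon
  have h3 : (4 : ℝ) / ((k + j : ℕ) : ℝ) ≤ 4 / k := by
    apply div_le_div_of_nonneg_left (by norm_num) hk0'
    push_cast
    have : (0 : ℝ) ≤ j := by positivity
    linarith
  have h4 : δ ≤ |Real.sin (Real.pi * ((k + j : ℕ) * √2))| + |Real.sin (Real.pi * (k * √2))| := by
    rw [hδdef]
    have e : Real.pi * ((j : ℝ) * √2) = Real.pi * ((k + j : ℕ) * √2) - Real.pi * (k * √2) := by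
      push_cast; ring
    rw [e, Real.sin_sub]
    set A := Real.pi * (((k + j : ℕ) : ℝ) * √2)
    set B := Real.pi * ((k : ℝ) * √2)
    calc |Real.sin A * Real.cos B - Real.cos A * Real.sin B|
        ≤ |Real.sin A * Real.cos B| + |Real.cos A * Real.sin B| := abs_sub _ _
      _ = |Real.sin A| * |Real.cos B| + |Real.cos A| * |Real.sin B| := by rw [abs_mul, abs_mul]
      _ ≤ |Real.sin A| * 1 + 1 * |Real.sin B| := by
          gcongr
          · exact Real.abs_cos_le_one _
          · exact Real.abs_cos_le_one _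
      _ = |Real.sin A| + |Real.sin B| := by ring
  have h5 : (8 : ℝ) / k = 4 / k + 4 / k := by ring
  linarith

lemma exists_run (m K : ℕ) : ∃ k, K ≤ k ∧ 0 < s k ∧ ∀ j, 0 < j → j ≤ m → s (k + j) ≤ 0 := by
  have h1 : ∀ᶠ k : ℕ in atTop, ∀ j ∈ Finset.Icc 1 m, 0 < s k → s (k + j) ≤ 0 := by
    rw [Filter.eventually_all_finset]
    intro j hj
    exact eventually_gap j (Finset.mem_Icc.mp hj).1
  obtain ⟨k, hk1, hk2, hk3⟩ := (frequently_pos.and_eventually (h1.and (eventually_ge_atTop K))).exists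
  exact ⟨k, hk3, hk1, fun j hj0 hjm => hk2 j (Finset.mem_Icc.mpr ⟨hj0, hjm⟩) hk1⟩

/-! ### Rational sequences -/

/-- The generating function of `f` is rational. -/
def RatSeq (f : ℕ → ℝ) : Prop :=
  ∃ a b : ℝ[X], b ≠ 0 ∧ (b : PowerSeries ℝ) * PowerSeries.mk f = (a : PowerSeries ℝ)

lemma RatSeq.add {f₁ f₂ : ℕ → ℝ} (h₁ : RatSeq f₁) (h₂ : RatSeq f₂) :
    RatSeq (fun k => f₁ k + f₂ k) := by
  obtain ⟨a₁, b₁, hb₁, e₁⟩ := h₁
  obtain ⟨a₂, b₂, hb₂, e₂⟩ := h₂
  refine ⟨a₁ * b₂ + a₂ * b₁, b₁ * b₂, mul_ne_zero hb₁ hb₂, ?_⟩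
  have e : PowerSeries.mk (fun k => f₁ k + f₂ k) = PowerSeries.mk f₁ + PowerSeries.mk f₂ := by
    ext n; simp
  rw [e]
  push_cast
  rw [← e₁, ← e₂]
  ring

lemma RatSeq.const_mul {f : ℕ → ℝ} (c : ℝ) (hf : RatSeq f) : RatSeq (fun k => c * f k) := by
  obtain ⟨a, b, hb, e⟩ := hf
  refine ⟨Polynomial.C c * a, b, hb, ?_⟩
  have e' : PowerSeries.mk (fun k => c * f k) = PowerSeries.C c * PowerSeries.mk f := by
    ext n; simp
  rw [e']
  push_cast
  rw [← e]
  ring

lemma RatSeq.nat_mul {f : ℕ → ℝ} (hf : RatSeq f) : RatSeq (fun k => (k : ℝ) * f k) := by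
  obtain ⟨a, b, hb, e⟩ := hf
  refine ⟨Polynomial.X * (Polynomial.derivative a * b - a * Polynomial.derivative b), b * b,
    mul_ne_zero hb hb, ?_⟩
  set F := PowerSeries.mk f with hF
  set F' : PowerSeries ℝ := PowerSeries.derivative ℝ F with hF'
  have e' : PowerSeries.mk (fun k => (k : ℝ) * f k) = PowerSeries.X * F' := by
    ext n
    rcases n with _ | n
    · simp
    · rw [PowerSeries.coeff_succ_X_mul, hF', PowerSeries.coeff_derivative, hF]
      simp only [PowerSeries.coeff_mk]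
      push_cast
      ring
  have hd : PowerSeries.derivative ℝ ((b : PowerSeries ℝ) * F) =
      (b : PowerSeries ℝ) * F' +
        PowerSeries.derivative ℝ (b : PowerSeries ℝ) * F := by
    rw [Derivation.leibniz]
    simp only [smul_eq_mul]
    ring
  rw [e, PowerSeries.derivative_coe, PowerSeries.derivative_coe] at hd
  rw [e']
  push_cast
  have h3 : (b : PowerSeries ℝ) * F' =
      ((Polynomial.derivative a : ℝ[X]) : PowerSeries ℝ) -
        ((Polynomial.derivative b : ℝ[X]) : PowerSeries ℝ) * F := by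
    rw [hd]; ring
  calc (b : PowerSeries ℝ) * (b : PowerSeries ℝ) * (PowerSeries.X * F')
      = PowerSeries.X * ((b : PowerSeries ℝ) * ((b : PowerSeries ℝ) * F')) := by ring
    _ = PowerSeries.X * (((Polynomial.derivative a : ℝ[X]) : PowerSeries ℝ) * (b : PowerSeries ℝ) -
          ((Polynomial.derivative b : ℝ[X]) : PowerSeries ℝ) * ((b : PowerSeries ℝ) * F)) := by
        rw [h3]; ring
    _ = _ := by rw [e]; ring

lemma ratSeq_geometric (r : ℝ) : RatSeq (fun k => r ^ k) := by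
  refine ⟨1, 1 - Polynomial.C r * Polynomial.X, ?_, ?_⟩
  · intro h0
    have := congrArg (Polynomial.eval 0) h0
    simp at this
  · push_cast
    have e : (1 - PowerSeries.C r * PowerSeries.X) * PowerSeries.mk (fun k => r ^ k) =
        PowerSeries.mk (fun k => r ^ k) -
          PowerSeries.C r * (PowerSeries.X * PowerSeries.mk (fun k => r ^ k)) := by ring
    rw [e]
    ext n
    rcases n with _ | n
    · simp
    · simp only [map_sub, PowerSeries.coeff_C_mul, PowerSeries.coeff_succ_X_mul,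
        PowerSeries.coeff_mk, PowerSeries.coeff_one]
      simp [pow_succ]
      ring

lemma ratSeq_cos (r ω : ℝ) : RatSeq (fun k : ℕ => r ^ k * Real.cos (k * ω)) := by
  refine ⟨1 - Polynomial.C (r * Real.cos ω) * Polynomial.X,
    1 - Polynomial.C (2 * r * Real.cos ω) * Polynomial.X +
      Polynomial.C (r ^ 2) * (Polynomial.X * Polynomial.X), ?_, ?_⟩
  · intro h0
    have := congrArg (Polynomial.eval 0) h0
    simp at this
  · push_cast
    set F := PowerSeries.mk (fun k : ℕ => r ^ k * Real.cos (k * ω)) with hF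
    have e : (1 - PowerSeries.C (2 * r * Real.cos ω) * PowerSeries.X +
        PowerSeries.C (r ^ 2) * (PowerSeries.X * PowerSeries.X)) * F =
        F - PowerSeries.C (2 * r * Real.cos ω) * (PowerSeries.X * F) +
          PowerSeries.C (r ^ 2) * (PowerSeries.X * (PowerSeries.X * F)) := by ring
    rw [e]
    ext n
    rcases n with _ | _ | n
    · simp [hF]
    · rw [map_add, map_sub, map_sub, PowerSeries.coeff_C_mul, PowerSeries.coeff_C_mul,
        PowerSeries.coeff_C_mul, PowerSeries.coeff_succ_X_mul, PowerSeries.coeff_succ_X_mul]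
      simp [hF, PowerSeries.coeff_one]
      ring
    · simp only [hF, map_sub, map_add, PowerSeries.coeff_C_mul, PowerSeries.coeff_succ_X_mul,
        PowerSeries.coeff_mk, PowerSeries.coeff_one]
      have h1 : Real.cos (((n + 1 + 1 : ℕ) : ℝ) * ω) =
          2 * Real.cos ω * Real.cos (((n + 1 : ℕ) : ℝ) * ω) - Real.cos ((n : ℝ) * ω) := by
        have e1 : ((n + 1 + 1 : ℕ) : ℝ) * ω = ((n + 1 : ℕ) : ℝ) * ω + ω := by push_cast; ring
        have e2 : (n : ℝ) * ω = ((n + 1 : ℕ) : ℝ) * ω - ω := by push_cast; ring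
        rw [e1, e2, Real.cos_add, Real.cos_sub]
        ring
      rw [h1]
      simp [PowerSeries.coeff_X]
      ring

lemma ratSeq_h : RatSeq h := by
  have h1 := (ratSeq_geometric (1 / 2)).const_mul 20
  have h2 := ((ratSeq_geometric (1 / 2)).nat_mul.nat_mul).const_mul (-1)
  have h3 := (ratSeq_cos (1 / 2) (2 * Real.pi * √2)).nat_mul.nat_mul
  have h4 := (h1.add h2).add h3
  have e : h = fun k : ℕ => 20 * (1 / 2 : ℝ) ^ k + -1 * ((k : ℝ) * ((k : ℝ) * (1 / 2 : ℝ) ^ k)) +
      (k : ℝ) * ((k : ℝ) * ((1 / 2 : ℝ) ^ k * Real.cos (k * (2 * Real.pi * √2)))) := by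
    funext k
    unfold h s
    rw [show 2 * Real.pi * ((k : ℝ) * √2) = (k : ℝ) * (2 * Real.pi * √2) by ring]
    ring
  rw [e]
  exact h4

lemma ratSeq_g : RatSeq g := (ratSeq_geometric (1 / 2)).const_mul 20

lemma ratSeq_zero : RatSeq (fun _ => 0) := by
  have := (ratSeq_geometric 1).const_mul 0
  simpa using this

lemma ratSeq_delta : RatSeq (fun k => if k = 0 then 1 else 0) := by
  refine ⟨1, 1, one_ne_zero, ?_⟩
  push_cast
  rw [one_mul]
  ext n
  simp [PowerSeries.coeff_one]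

/-- The positive part of `h` is not rational. -/
lemma not_ratSeq_pos : ¬ RatSeq (fun k => max 0 (h k)) := by
  rintro ⟨a, b, hb, e⟩
  obtain ⟨k, hk1, hk2, hk3⟩ := exists_run b.natDegree (a.natDegree + 1)
  have hcoef := congrArg (PowerSeries.coeff (b.natDegree + k)) e
  rw [PowerSeries.coeff_mul, Polynomial.coeff_coe] at hcoef
  have ha : a.coeff (b.natDegree + k) = 0 := by
    apply Polynomial.coeff_eq_zero_of_natDegree_lt
    omega
  rw [ha] at hcoef
  have hpos : 0 < h k := by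
    unfold h
    have : (0 : ℝ) < (1 / 2 : ℝ) ^ k := by positivity
    exact mul_pos this hk2
  rw [Finset.sum_eq_single (b.natDegree, k)] at hcoef
  · simp only [Polynomial.coeff_coe, PowerSeries.coeff_mk, Polynomial.coeff_natDegree] at hcoef
    rw [max_eq_right hpos.le] at hcoef
    rcases mul_eq_zero.mp hcoef with h1 | h1
    · exact hb (Polynomial.leadingCoeff_eq_zero.mp h1)
    · exact hpos.ne' h1
  · rintro ⟨i, j⟩ hij hne
    rw [Finset.HasAntidiagonal.mem_antidiagonal] at hij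
    simp only at hij
    simp only [Polynomial.coeff_coe, PowerSeries.coeff_mk]
    rcases lt_trichotomy i b.natDegree with hi | hi | hi
    · have hjk : j = k + (b.natDegree - i) := by omega
      have h1 : s j ≤ 0 := by
        rw [hjk]
        exact hk3 _ (by omega) (by omega)
      have h2 : h j ≤ 0 := by
        unfold h
        have : (0 : ℝ) < (1 / 2 : ℝ) ^ j := by positivity
        nlinarith
      rw [max_eq_left h2, mul_zero]
    · exfalso
      apply hne
      rw [Prod.mk.injEq]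
      exact ⟨hi, by omega⟩
    · rw [Polynomial.coeff_eq_zero_of_natDegree_lt hi, zero_mul]
  · intro hnot
    exact absurd (Finset.HasAntidiagonal.mem_antidiagonal.mpr
      (show (b.natDegree, k).1 + (b.natDegree, k).2 = b.natDegree + k from rfl)) hnot

/-! ### The instance -/

/-- `H = (0, h, g)`. -/
noncomputable def H : ℕ → Matrix (Fin 1) (Fin 3) ℝ := fun k => !![0, h k, g k]

/-- `U = 1`. -/
def U : ℕ → Matrix (Fin 1) (Fin 1) ℝ := static !![1]

/-- `V = (1, 1, 1)`. -/
def V : ℕ → Matrix (Fin 1) (Fin 3) ℝ := static !![1, 1, 1]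

/-- the optimal `Q` -/
noncomputable def Qopt : ℕ → Matrix (Fin 1) (Fin 1) ℝ := fun k => !![max 0 (h k)]

lemma conv_U (Q : ℕ → Matrix (Fin 1) (Fin 1) ℝ) : conv U Q = Q := by
  funext k
  unfold conv
  rw [Finset.sum_eq_single 0]
  · have h1 : (!![1] : Matrix (Fin 1) (Fin 1) ℝ) = 1 := by
      ext i j; fin_cases i; fin_cases j; simp
    simp [U, static, h1]
  · intro t _ ht
    simp [U, static, ht]
  · intro h0
    exact absurd (Finset.mem_range.mpr (Nat.succ_pos k)) h0

lemma conv_V (Q : ℕ → Matrix (Fin 1) (Fin 1) ℝ) (k : ℕ) (i : Fin 1) (j : Fin 3) :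
    conv Q V k i j = Q k 0 0 := by
  unfold conv
  rw [Finset.sum_eq_single k]
  · fin_cases i; fin_cases j <;> simp [V, static, Matrix.mul_apply]
  · intro t ht htk
    have : k - t ≠ 0 := by
      have := Finset.mem_range.mp ht
      omega
    simp [V, static, this]
  · intro h0
    exact absurd (Finset.mem_range.mpr (Nat.lt_succ_self k)) h0

/-- the cost of a scalar sequence -/
noncomputable def cost (x : ℕ → ℝ) : ℝ :=
  (∑' k, |0 - x k|) + (∑' k, |h k - x k|) + ∑' k, |g k - x k|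

lemma norm_eq (Q : ℕ → Matrix (Fin 1) (Fin 1) ℝ) :
    l1Norm (H - conv (conv U Q) V) = cost (fun k => Q k 0 0) := by
  unfold l1Norm cost
  rw [conv_U]
  rw [ciSup_unique]
  rw [Fin.sum_univ_three]
  simp only [Pi.sub_apply, Matrix.sub_apply, conv_V]
  simp [H]

lemma cost_split {x : ℕ → ℝ} (hx : Summable fun k => |x k|) :
    Summable (fun k => |0 - x k| + |h k - x k| + |g k - x k|) ∧
    cost x = ∑' k, (|0 - x k| + |h k - x k| + |g k - x k|) := by
  have s1 : Summable fun k => |0 - x k| := by simpa using hx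
  have s2 : Summable fun k => |h k - x k| :=
    Summable.of_nonneg_of_le (fun _ => abs_nonneg _) (fun k => abs_sub _ _) (summable_h.add hx)
  have s3 : Summable fun k => |g k - x k| := by
    refine Summable.of_nonneg_of_le (fun _ => abs_nonneg _) (fun k => abs_sub _ _)
      (Summable.add ?_ hx)
    simpa [abs_of_nonneg (g_nonneg _)] using summable_g
  refine ⟨(s1.add s2).add s3, ?_⟩
  unfold cost
  rw [Summable.tsum_add (s1.add s2) s3, Summable.tsum_add s1 s2]

/-- Pointwise: the median is the strict minimiser. -/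
lemma median (a b x : ℝ) (hab : a ≤ b) (hb : 0 ≤ b) :
    |0 - max 0 a| + |a - max 0 a| + |b - max 0 a| + |x - max 0 a| ≤
      |0 - x| + |a - x| + |b - x| := by
  rcases le_total a 0 with ha | ha
  · rw [max_eq_left ha]
    have e1 : |0 - (0 : ℝ)| = 0 := by simp
    have e2 : |a - 0| = -a := by rw [sub_zero, abs_of_nonpos ha]
    have e3 : |b - 0| = b := by rw [sub_zero, abs_of_nonneg hb]
    have e4 : |x - 0| = |0 - x| := by rw [abs_sub_comm]
    rw [e1, e2, e3, e4]
    have h1 : x - a ≤ |a - x| := by rw [abs_sub_comm]; exact le_abs_self _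
    have h2 : b - x ≤ |b - x| := le_abs_self _
    linarith
  · rw [max_eq_right ha]
    have e1 : |0 - a| = a := by rw [zero_sub, abs_neg, abs_of_nonneg ha]
    have e2 : |a - a| = 0 := by simp
    have e3 : |b - a| = b - a := abs_of_nonneg (by linarith)
    have e4 : |x - a| = |a - x| := abs_sub_comm _ _
    rw [e1, e2, e3, e4]
    have h1 : x ≤ |0 - x| := by rw [zero_sub, abs_neg]; exact le_abs_self _
    have h2 : b - x ≤ |b - x| := le_abs_self _
    linarith

lemma summable_opt : Summable fun k => |max 0 (h k)| := by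
  refine Summable.of_nonneg_of_le (fun _ => abs_nonneg _) (fun k => ?_) summable_h
  rcases le_total (h k) 0 with h1 | h1
  · rw [max_eq_left h1]; simp
  · rw [max_eq_right h1]

lemma cost_opt {x : ℕ → ℝ} (hx : Summable fun k => |x k|) :
    cost (fun k => max 0 (h k)) + ∑' k, |x k - max 0 (h k)| ≤ cost x := by
  obtain ⟨s1, e1⟩ := cost_split summable_opt
  obtain ⟨s2, e2⟩ := cost_split hx
  have s3 : Summable fun k => |x k - max 0 (h k)| :=
    Summable.of_nonneg_of_le (fun _ => abs_nonneg _) (fun k => abs_sub _ _) (hx.add summable_opt)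
  rw [e1, e2, ← Summable.tsum_add s1 s3]
  refine Summable.tsum_le_tsum (fun k => ?_) (s1.add s3) s2
  exact median (h k) (g k) (x k) (h_le_g k) (g_nonneg k)

lemma isL1_Qopt : IsL1 Qopt := by
  intro i j
  fin_cases i; fin_cases j
  simpa [Qopt] using summable_opt

lemma isOptimal_Qopt : IsOptimal H U V Qopt := by
  refine ⟨isL1_Qopt, fun Q' hQ' => ?_⟩
  rw [norm_eq, norm_eq]
  have h1 := cost_opt (hQ' 0 0)
  have h2 : (fun k => Qopt k 0 0) = fun k => max 0 (h k) := by funext k; simp [Qopt]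
  rw [h2]
  have h3 : 0 ≤ ∑' k, |Q' k 0 0 - max 0 (h k)| := tsum_nonneg fun _ => abs_nonneg _
  linarith

lemma optimal_unique {Q : ℕ → Matrix (Fin 1) (Fin 1) ℝ} (hQ : IsOptimal H U V Q) :
    ∀ k, Q k 0 0 = max 0 (h k) := by
  have h1 := hQ.2 Qopt isL1_Qopt
  rw [norm_eq, norm_eq] at h1
  have h2 : (fun k => Qopt k 0 0) = fun k => max 0 (h k) := by funext k; simp [Qopt]
  rw [h2] at h1
  have h3 := cost_opt (hQ.1 0 0)
  have s3 : Summable fun k => |Q k 0 0 - max 0 (h k)| :=
    Summable.of_nonneg_of_le (fun _ => abs_nonneg _) (fun k => abs_sub _ _)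
      ((hQ.1 0 0).add summable_opt)
  intro k
  have h4 : |Q k 0 0 - max 0 (h k)| ≤ ∑' k, |Q k 0 0 - max 0 (h k)| :=
    s3.le_tsum k fun _ _ => abs_nonneg _
  have h5 : |Q k 0 0 - max 0 (h k)| ≤ 0 := by linarith
  have h6 := abs_nonpos_iff.mp h5
  linarith

lemma isRational_of {p q : ℕ} {X : ℕ → Matrix (Fin p) (Fin q) ℝ}
    (hX : ∀ i j, RatSeq (fun k => X k i j)) : IsRational X := by
  choose a b hb e using hX
  exact ⟨fun i j => algebraMap ℝ[X] (RatFunc ℝ) (a i j) / algebraMap ℝ[X] (RatFunc ℝ) (b i j),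
    fun i j => ⟨a i j, b i j, hb i j, e i j, rfl⟩⟩

lemma ratSeq_of_isRational {p q : ℕ} {X : ℕ → Matrix (Fin p) (Fin q) ℝ}
    (hX : IsRational X) (i : Fin p) (j : Fin q) : RatSeq (fun k => X k i j) := by
  obtain ⟨R, hR⟩ := hX
  obtain ⟨a, b, hb, e, _⟩ := hR i j
  exact ⟨a, b, hb, e⟩

lemma isMultiBlock : IsMultiBlock U V := by
  obtain ⟨RU, hRU⟩ : IsRational U := by
    apply isRational_of
    intro i j
    fin_cases i; fin_cases j
    have e : (fun k => U k 0 0) = fun k => if k = 0 then (1 : ℝ) else 0 := by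
      funext k; by_cases hk : k = 0 <;> simp [U, static, hk]
    simpa [e] using ratSeq_delta
  obtain ⟨RV, hRV⟩ : IsRational V := by
    apply isRational_of
    intro i j
    have e : (fun k => V k i j) = fun k => if k = 0 then (1 : ℝ) else 0 := by
      funext k
      by_cases hk : k = 0
      · fin_cases i; fin_cases j <;> simp [V, static, hk]
      · simp [V, static, hk]
    rw [e]
    exact ratSeq_delta
  refine ⟨RU, RV, hRU, hRV, ?_⟩
  rintro ⟨_, h3⟩
  have h4 : RV.rank ≤ 1 := by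
    have := Matrix.rank_le_height RV
    simpa using this
  omega

/-- **Negative answer.** There is a rational `H ∈ ℓ_1^{1×3}` such that, with `U = 1` and
`V = (1, 1, 1)` (a multi-block instance), `inf_Q ‖H - UQV‖_1` is attained in `ℓ_1`, but no optimal
`Q` is rational. -/
theorem result :
    ∃ (H : ℕ → Matrix (Fin 1) (Fin 3) ℝ) (U : ℕ → Matrix (Fin 1) (Fin 1) ℝ)
      (V : ℕ → Matrix (Fin 1) (Fin 3) ℝ),
      U = static !![1] ∧ V = static !![1, 1, 1] ∧
      IsL1 H ∧ IsL1 U ∧ IsL1 V ∧ IsRational H ∧ IsRational U ∧ IsRational V ∧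
      IsMultiBlock U V ∧ (∃ Q, IsOptimal H U V Q) ∧
      ∀ Q, IsOptimal H U V Q → ¬ IsRational Q := by
  have hUr : ∀ i j, RatSeq (fun k => U k i j) := by
    intro i j
    fin_cases i; fin_cases j
    have e : (fun k => U k 0 0) = fun k => if k = 0 then (1 : ℝ) else 0 := by
      funext k; by_cases hk : k = 0 <;> simp [U, static, hk]
    simpa [e] using ratSeq_delta
  have hVr : ∀ i j, RatSeq (fun k => V k i j) := by
    intro i j
    have e : (fun k => V k i j) = fun k => if k = 0 then (1 : ℝ) else 0 := by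
      funext k
      by_cases hk : k = 0
      · fin_cases i; fin_cases j <;> simp [V, static, hk]
      · simp [V, static, hk]
    rw [e]
    exact ratSeq_delta
  refine ⟨H, U, V, rfl, rfl, ?_, ?_, ?_,
    isRational_of ?_, isRational_of hUr, isRational_of hVr, isMultiBlock,
    ⟨Qopt, isOptimal_Qopt⟩, ?_⟩
  · intro i j
    fin_cases i; fin_cases j
    · simp [H]
    · simpa [H] using summable_h
    · simpa [H, abs_of_nonneg (g_nonneg _)] using summable_g
  · intro i j
    apply summable_of_ne_finset_zero (s := {0})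
    intro k hk
    have : k ≠ 0 := by simpa using hk
    simp [U, static, this]
  · intro i j
    apply summable_of_ne_finset_zero (s := {0})
    intro k hk
    have : k ≠ 0 := by simpa using hk
    simp [V, static, this]
  · intro i j
    fin_cases i; fin_cases j
    · simpa [H] using ratSeq_zero
    · simpa [H] using ratSeq_h
    · simpa [H] using ratSeq_g
  · intro Q hQ hrat
    have h1 := ratSeq_of_isRational hrat 0 0
    have h2 : (fun k => Q k 0 0) = fun k => max 0 (h k) := funext (optimal_unique hQ)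
    rw [h2] at h1
    exact not_ratSeq_pos h1

end Pool.Agent.Results.MP_c74d57_an.IrrationalOptimum
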